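import Pool.Agent.Helper30_SkewP4.Stmts

/-! Module JT: compatibility of `jT`. -/

set_option autoImplicit false

open scoped Matrix TensorProduct

namespace Pool.Agent.SkewP4.H21

open Pool.Agent.SkewP4

theorem jT_tmul (r : R) (w : E) : jT (r ⊗ₜ[ℂ] w) = (algebraMap R L r) ⊗ₜ[ℂ] w := rfl

theorem psi_apply (a : Ix) (w : E) : psi a w = gen a * w := rfl

theorem opPsi_tmul {C : Type} [CommRing C] [Algebra ℂ C] (f : Fin 5 → (C →ₗ[ℂ] C))
    (c : Fin 5 → Ix) (r : C) (w : E) :
    opPsi f c (r ⊗ₜ[ℂ] w) = ∑ j : Fin 5, (f j r) ⊗ₜ[ℂ] (psi (c j) w) := by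
  unfold opPsi
  rw [LinearMap.sum_apply]
  rfl

theorem opPhi_tmul {C : Type} [CommRing C] [Algebra ℂ C] (f : Fin 5 → (C →ₗ[ℂ] C))
    (c : Fin 5 → Ix) (r : C) (w : E) :
    opPhi f c (r ⊗ₜ[ℂ] w) = ∑ j : Fin 5, (f j r) ⊗ₜ[ℂ] (phi (c j) w) := by
  unfold opPhi
  rw [LinearMap.sum_apply]
  rfl

theorem sS_tmul {C : Type} [CommRing C] [Algebra ℂ C] (r : C) (w : E) :
    sS (r ⊗ₜ[ℂ] w) = r ⊗ₜ[ℂ] (sE w) := rfl

theorem opRho_tmul (r : R) (w : E) : opRho (r ⊗ₜ[ℂ] w) = (rhoR * r) ⊗ₜ[ℂ] w := rfl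

theorem opE_one : opE ((1 : R) ⊗ₜ[ℂ] (1 : E)) =
    ∑ j : Fin 5, (MvPolynomial.X (Sum.inl j) : R) ⊗ₜ[ℂ] gen (Sum.inr j) := by
  unfold opE
  rw [opPsi_tmul]
  refine Finset.sum_congr rfl fun j _ => ?_
  rw [psi_apply, mul_one]
  show ((MvPolynomial.X (Sum.inl j) : R) * 1) ⊗ₜ[ℂ] _ = _
  rw [mul_one]

theorem rho_ne : algebraMap R L rhoR ≠ 0 := by
  intro h
  have h0 : rhoR = 0 := by
    apply IsFractionRing.injective R L
    rw [h, map_zero]
  have h1 := congrArg (MvPolynomial.eval (fun i : Ix => match i with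
    | Sum.inl j => if j = 0 then (1 : ℂ) else 0
    | Sum.inr _ => 1)) h0
  simp [rhoR] at h1

theorem rhoL_inv : ((algebraMap R L rhoR)⁻¹ ⊗ₜ[ℂ] (1 : E)) * rhoL = 1 := by
  unfold rhoL
  rw [Algebra.TensorProduct.tmul_mul_tmul, inv_mul_cancel₀ rho_ne, mul_one]
  rfl

theorem rhoL_comm (l : L) (a : Lam) : (l ⊗ₜ[ℂ] (1 : E)) * a = a * (l ⊗ₜ[ℂ] (1 : E)) := by
  induction a using TensorProduct.induction_on with
  | zero => simp
  | tmul l' w =>
    rw [Algebra.TensorProduct.tmul_mul_tmul, Algebra.TensorProduct.tmul_mul_tmul, mul_comm l l',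
      one_mul, mul_one]
  | add a b ha hb => rw [mul_add, add_mul, ha, hb]

theorem rhoL_pow (k : ℕ) : rhoL ^ k = ((algebraMap R L rhoR) ^ k) ⊗ₜ[ℂ] (1 : E) := by
  unfold rhoL
  rw [Algebra.TensorProduct.tmul_pow, one_pow]

theorem pderiv_rho (j : Fin 5) : MvPolynomial.pderiv (Sum.inr j) rhoR
    = (MvPolynomial.X (Sum.inl j) : R) := by
  unfold rhoR
  rw [map_sum, Finset.sum_eq_single j]
  · rw [MvPolynomial.pderiv_mul, MvPolynomial.pderiv_X_self,
      MvPolynomial.pderiv_X_of_ne (by simp), zero_mul, zero_add, mul_one]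
  · intro i _ hi
    rw [MvPolynomial.pderiv_mul, MvPolynomial.pderiv_X_of_ne (by simp),
      MvPolynomial.pderiv_X_of_ne (by simpa using hi), zero_mul, mul_zero, zero_add]
  · intro h
    exact absurd (Finset.mem_univ j) h

theorem pd_pow (pd : Fin 5 → (L →ₗ[ℂ] L)) (h : PdProp pd) (j : Fin 5) (k : ℕ) (l : L) :
    pd j ((algebraMap R L rhoR) ^ (k + 1) * l) = (algebraMap R L rhoR) ^ (k + 1) * pd j l
      + ((k : ℂ) + 1) • ((algebraMap R L rhoR) ^ k *
        (algebraMap R L (MvPolynomial.X (Sum.inl j)) * l)) := by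
  induction k generalizing l with
  | zero =>
    rw [h.mul, zero_add, pow_one, h.alg, pderiv_rho]
    simp
    ring
  | succ k ih =>
    have e : (algebraMap R L rhoR) ^ (k + 1 + 1) * l
        = (algebraMap R L rhoR) ^ (k + 1) * ((algebraMap R L rhoR) * l) := by ring
    rw [e, ih, h.mul, h.alg, pderiv_rho]
    push_cast
    simp only [Algebra.smul_def, map_add, map_one, map_natCast]
    ring

theorem jt : JtStmt where
  inj := by
    have h : Function.Injective
        (LinearMap.rTensor E ((IsScalarTower.toAlgHom ℂ R L).toLinearMap)) :=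
      Module.Flat.rTensor_preserves_injective_linearMap _ (IsFractionRing.injective R L)
    intro a b hab
    exact h hab
  d := by
    intro pd h t
    induction t using TensorProduct.induction_on with
    | zero => simp
    | tmul r w =>
      unfold dLam opD
      rw [jT_tmul, opPsi_tmul, opPsi_tmul, map_sum]
      refine Finset.sum_congr rfl fun j _ => ?_
      rw [jT_tmul, h.alg]
      rfl
    | add a b ha hb => rw [map_add, map_add, map_add, map_add, ha, hb]
  i := by
    intro t
    induction t using TensorProduct.induction_on with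
    | zero => simp
    | tmul r w =>
      unfold iLam opI
      rw [jT_tmul, opPhi_tmul, opPhi_tmul, map_sum]
      refine Finset.sum_congr rfl fun j _ => ?_
      rw [jT_tmul]
      show (algebraMap R L _ * algebraMap R L _) ⊗ₜ[ℂ] _ = (algebraMap R L (_ * _)) ⊗ₜ[ℂ] _
      rw [map_mul]
    | add a b ha hb => rw [map_add, map_add, map_add, map_add, ha, hb]
  s := by
    intro t
    induction t using TensorProduct.induction_on with
    | zero => simp
    | tmul r w => rfl
    | add a b ha hb => rw [map_add, map_add, map_add, map_add, ha, hb]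
  rho := by
    intro t
    induction t using TensorProduct.induction_on with
    | zero => simp
    | tmul r w =>
      rw [jT_tmul, opRho_tmul, jT_tmul, rhoL, Algebra.TensorProduct.tmul_mul_tmul, one_mul,
        map_mul]
    | add a b ha hb => rw [map_add, mul_add, map_add, map_add, ha, hb]
  rho_comm := fun a => rhoL_comm _ a
  rho_cancel := by
    intro a h
    have h2 : ((algebraMap R L rhoR)⁻¹ ⊗ₜ[ℂ] (1 : E)) * (rhoL * a) = 0 := by rw [h, mul_zero]
    rwa [← mul_assoc, rhoL_inv, one_mul] at h2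
  rho_div := by
    intro a
    refine ⟨((algebraMap R L rhoR)⁻¹ ⊗ₜ[ℂ] (1 : E)) * a, ?_⟩
    have h2 : rhoL * ((algebraMap R L rhoR)⁻¹ ⊗ₜ[ℂ] (1 : E)) = 1 := by
      rw [← rhoL_comm, rhoL_inv]
    rw [← mul_assoc, h2, one_mul]
  d_rho := by
    intro pd h k a
    induction a using TensorProduct.induction_on with
    | zero => simp
    | tmul l w =>
      rw [rhoL_pow, rhoL_pow, Algebra.TensorProduct.tmul_mul_tmul, one_mul, opE_one, map_sum,
        Finset.sum_mul, Finset.mul_sum, Finset.smul_sum]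
      unfold dLam
      rw [opPsi_tmul, opPsi_tmul, Finset.mul_sum, ← Finset.sum_add_distrib]
      refine Finset.sum_congr rfl fun j _ => ?_
      rw [pd_pow pd h, jT_tmul, Algebra.TensorProduct.tmul_mul_tmul,
        Algebra.TensorProduct.tmul_mul_tmul, Algebra.TensorProduct.tmul_mul_tmul, one_mul, one_mul,
        psi_apply, TensorProduct.add_tmul, TensorProduct.smul_tmul']
    | add a b ha hb =>
      rw [mul_add, map_add, ha, hb, map_add, mul_add, mul_add, mul_add, smul_add]
      abel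
  e_mul := by
    intro t
    rw [opE_one, map_sum, Finset.sum_mul]
    induction t using TensorProduct.induction_on with
    | zero => simp
    | tmul r w =>
      unfold opE
      rw [opPsi_tmul, map_sum]
      refine Finset.sum_congr rfl fun j _ => ?_
      rw [jT_tmul, jT_tmul, jT_tmul, Algebra.TensorProduct.tmul_mul_tmul, psi_apply]
      show _ = (algebraMap R L (_ * _)) ⊗ₜ[ℂ] _
      rw [map_mul]
    | add a b ha hb =>
      rw [map_add, map_add, map_add, ← ha, ← hb, ← Finset.sum_add_distrib]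
      refine Finset.sum_congr rfl fun j _ => ?_
      rw [mul_add]

end Pool.Agent.SkewP4.H21
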