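import Pool.Agent.Helper30_SkewP4.Stmts

/-! Module TMUL: products on the level of `T`. -/

set_option autoImplicit false

open scoped Matrix TensorProduct

namespace Pool.Agent.SkewP4.H21M

open Pool.Agent.SkewP4

theorem opPhi_tmul {C : Type} [CommRing C] [Algebra ℂ C] (f : Fin 5 → (C →ₗ[ℂ] C))
    (c : Fin 5 → Ix) (r : C) (w : E) :
    opPhi f c (r ⊗ₜ[ℂ] w) = ∑ j : Fin 5, (f j r) ⊗ₜ[ℂ] (phi (c j) w) := by
  unfold opPhi
  rw [LinearMap.sum_apply]
  rfl

/-- induction principle for `TP` -/
theorem TP_induction {p q : ℕ} {P : T → Prop} (h0 : P 0)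
    (h1 : ∀ (r : R) (w : E), w ∈ Epq p q → P (r ⊗ₜ[ℂ] w))
    (h2 : ∀ a b, P a → P b → P (a + b)) {t : T} (ht : t ∈ TP R p q) : P t := by
  obtain ⟨s, rfl⟩ := ht
  induction s using TensorProduct.induction_on with
  | zero => simpa using h0
  | tmul r w =>
    rw [LinearMap.lTensor_tmul]
    exact h1 r _ w.2
  | add a b ha hb =>
    rw [map_add]
    exact h2 _ _ ha hb

theorem TP_tmul {p q : ℕ} (r : R) {w : E} (hw : w ∈ Epq p q) : r ⊗ₜ[ℂ] w ∈ TP R p q :=
  ⟨r ⊗ₜ[ℂ] ⟨w, hw⟩, by rw [LinearMap.lTensor_tmul]; rfl⟩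

theorem TP_mul (h2 : Ext2Stmt) {p q p' q' : ℕ} {g g' : T} (hg : g ∈ TP R p q)
    (hg' : g' ∈ TP R p' q') : g * g' ∈ TP R (p + p') (q + q') := by
  refine TP_induction (P := fun g => g * g' ∈ TP R (p + p') (q + q')) ?_ ?_ ?_ hg
  · rw [zero_mul]
    exact Submodule.zero_mem _
  · intro r w hw
    refine TP_induction (P := fun g' => (r ⊗ₜ[ℂ] w) * g' ∈ TP R (p + p') (q + q')) ?_ ?_ ?_ hg'
    · rw [mul_zero]
      exact Submodule.zero_mem _
    · intro r' w' hw'
      rw [Algebra.TensorProduct.tmul_mul_tmul]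
      exact TP_tmul _ (h2.mul_mem _ _ _ _ _ _ hw hw')
    · intro a b ha hb
      rw [mul_add]
      exact Submodule.add_mem _ ha hb
  · intro a b ha hb
    rw [add_mul]
    exact Submodule.add_mem _ ha hb

theorem opK_mul (h1 : Ext1Stmt) (g g' : T) : opK (g * g') = opK g * g' + sS g * opK g' := by
  induction g using TensorProduct.induction_on with
  | zero => simp
  | tmul r w =>
    induction g' using TensorProduct.induction_on with
    | zero => simp
    | tmul r' w' =>
      unfold opK
      rw [Algebra.TensorProduct.tmul_mul_tmul, opPhi_tmul, opPhi_tmul, opPhi_tmul]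
      have e : sS (r ⊗ₜ[ℂ] w) = r ⊗ₜ[ℂ] (sE w) := rfl
      rw [e, Finset.sum_mul, Finset.mul_sum, ← Finset.sum_add_distrib]
      refine Finset.sum_congr rfl fun j _ => ?_
      rw [Algebra.TensorProduct.tmul_mul_tmul, Algebra.TensorProduct.tmul_mul_tmul, h1.phi_mul,
        TensorProduct.tmul_add]
      have e1 : my j (r * r') = my j r * r' := by
        show (MvPolynomial.X _ : R) * (r * r') = (MvPolynomial.X _ * r) * r'
        ring
      have e2 : r * my j r' = my j (r * r') := by
        show r * ((MvPolynomial.X _ : R) * r') = MvPolynomial.X _ * (r * r')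
        ring
      rw [e2, e1]
    | add a b ha hb =>
      rw [mul_add, map_add, ha, hb, map_add, mul_add, mul_add]
      abel
  | add a b ha hb =>
    rw [add_mul, map_add, ha, hb, map_add, map_add, add_mul, add_mul]
    abel

theorem Ny_mul (r r' : R) : Ny (r * r') = Ny r * r' + r * Ny r' := by
  unfold Ny
  rw [LinearMap.sum_apply, LinearMap.sum_apply, LinearMap.sum_apply, Finset.sum_mul,
    Finset.mul_sum, ← Finset.sum_add_distrib]
  refine Finset.sum_congr rfl fun j _ => ?_
  show (MvPolynomial.X _ : R) * (MvPolynomial.pderiv _ (r * r'))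
    = (MvPolynomial.X _ * MvPolynomial.pderiv _ r) * r' + r * (MvPolynomial.X _ *
      MvPolynomial.pderiv _ r')
  rw [MvPolynomial.pderiv_mul]
  ring

theorem opNy_mul (g g' : T) : opNy (g * g') = opNy g * g' + g * opNy g' := by
  induction g using TensorProduct.induction_on with
  | zero => simp
  | tmul r w =>
    induction g' using TensorProduct.induction_on with
    | zero => simp
    | tmul r' w' =>
      unfold opNy
      rw [Algebra.TensorProduct.tmul_mul_tmul, LinearMap.rTensor_tmul, LinearMap.rTensor_tmul,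
        LinearMap.rTensor_tmul, Algebra.TensorProduct.tmul_mul_tmul,
        Algebra.TensorProduct.tmul_mul_tmul, Ny_mul, TensorProduct.add_tmul]
    | add a b ha hb =>
      rw [mul_add, map_add, ha, hb, map_add, mul_add, mul_add]
      abel
  | add a b ha hb =>
    rw [add_mul, map_add, ha, hb, map_add, add_mul, add_mul]
    abel

theorem mem_TK {p q k : ℕ} {g : T} : g ∈ TK p q k ↔
    g ∈ TP R p q ∧ opK g = 0 ∧ opNy g = ((k : ℂ) - q) • g := by
  unfold TK
  rw [Submodule.mem_inf, Submodule.mem_inf, LinearMap.mem_ker, LinearMap.mem_ker,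
    LinearMap.sub_apply, LinearMap.smul_apply, LinearMap.id_apply, sub_eq_zero, and_assoc]

theorem tmul (h1 : Ext1Stmt) (h2 : Ext2Stmt) (hr : OprStmt) (hb : OpbStmt) : TmulStmt where
  mul_mem := by
    intro p q k p' q' k' g g' hg hg'
    rw [mem_TK] at hg hg' ⊢
    obtain ⟨a1, a2, a3⟩ := hg
    obtain ⟨b1, b2, b3⟩ := hg'
    refine ⟨TP_mul h2 a1 b1, ?_, ?_⟩
    · rw [opK_mul h1, a2, b2, zero_mul, mul_zero, add_zero]
    · rw [opNy_mul, a3, b3, smul_mul_assoc, mul_smul_comm, ← add_smul]
      push_cast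
      congr 1
      ring
  one_mem := by
    rw [mem_TK]
    have e : (1 : T) = (1 : R) ⊗ₜ[ℂ] (1 : E) := rfl
    refine ⟨?_, ?_, ?_⟩
    · rw [e]
      exact TP_tmul _ h2.one_mem
    · rw [e]
      unfold opK
      rw [opPhi_tmul]
      refine Finset.sum_eq_zero fun j _ => ?_
      rw [h1.phi_one, TensorProduct.tmul_zero]
    · rw [e]
      unfold opNy
      rw [LinearMap.rTensor_tmul]
      have e2 : Ny (1 : R) = 0 := by
        unfold Ny
        rw [LinearMap.sum_apply]
        refine Finset.sum_eq_zero fun j _ => ?_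
        show (MvPolynomial.X _ : R) * (MvPolynomial.pderiv _ (1 : R)) = 0
        rw [Derivation.map_one_eq_zero, mul_zero]
      rw [e2, TensorProduct.zero_tmul]
      simp
  s_mem := by
    intro p q k g hg
    have hg1 := (mem_TK.1 hg).1
    refine TP_induction (P := fun g => sS g = (-1 : ℂ) ^ (p + q) • g) ?_ ?_ ?_ hg1
    · simp
    · intro r w hw
      show r ⊗ₜ[ℂ] (sE w) = _
      rw [h2.sE_mem p q w hw, TensorProduct.tmul_smul]
    · intro a b ha hb
      rw [map_add, ha, hb, smul_add]
  rho_mem := by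
    intro p q k g hg
    rw [mem_TK] at hg ⊢
    obtain ⟨a1, a2, a3⟩ := hg
    refine ⟨hb.r_mem p q g _ a1, ?_, ?_⟩
    · rw [hr.rho_K, a2, map_zero]
    · rw [hr.Ny_rho, a3, map_smul]
      push_cast
      module
  rho_mul := by
    intro g
    induction g using TensorProduct.induction_on with
    | zero => simp
    | tmul r w =>
      rw [Algebra.TensorProduct.tmul_mul_tmul, one_mul]
      rfl
    | add a b ha hb => rw [mul_add, map_add, ha, hb]
  I_mem := by
    intro p q k g hg
    rw [mem_TK] at hg ⊢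
    obtain ⟨a1, a2, a3⟩ := hg
    refine ⟨hb.I_mem p q g a1, ?_, ?_⟩
    · rw [hr.KI, a2, map_zero, neg_zero]
    · rw [hr.Ny_I, a3, map_smul]
  D_mem := by
    intro p q k g hg
    rw [mem_TK] at hg ⊢
    obtain ⟨a1, a2, a3⟩ := hg
    refine ⟨Submodule.sub_mem _ (hb.r_mem _ _ _ _ (hb.D_mem p q g a1))
      (Submodule.smul_mem _ _ (hb.E_mem p q g a1)), ?_, ?_⟩
    · have e1 := hb.DK p q g a1
      rw [a2, map_zero, zero_add, a3] at e1
      have e2 := hr.EK g
      rw [a2, map_zero, zero_add] at e2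
      rw [map_sub, hr.rho_K, e1, map_smul, e2, map_add, map_smul, map_smul]
      module
    · rw [map_sub, hr.Ny_rho, hr.Ny_D, a3, map_smul opNy, hr.Ny_E, a3]
      simp only [map_sub, map_smul]
      push_cast
      module

end Pool.Agent.SkewP4.H21M
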